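import Pool.Agent.J4H64.MC.Def

set_option autoImplicit false

/-!
# Project MC, piece PFIN (helper46): the asymptotic form of the parametric lower bound
-/

namespace Pool.Agent.J4H46.MC

open Finset Filter
open Pool.Agent.J4H64.MC

lemma card_clause (n k : ℕ) : Fintype.card (Clause n k) ≤ (2 * n + 1) ^ k := by
  classical
  have h0 : Fintype.card (Clause n k) =
      (univ.filter fun c : Finset (Fin n × Bool) => c.card ≤ k).card := by
    unfold Clause
    exact Fintype.card_subtype _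
  rw [h0]
  calc (univ.filter fun c : Finset (Fin n × Bool) => c.card ≤ k).card
      ≤ ((range (k + 1)).biUnion fun j => powersetCard j (univ : Finset (Fin n × Bool))).card := by
        apply card_le_card
        intro c hc
        rw [mem_filter] at hc
        rw [mem_biUnion]
        exact ⟨c.card, mem_range.mpr (by omega), mem_powersetCard.mpr ⟨subset_univ _, rfl⟩⟩
    _ ≤ ∑ j ∈ range (k + 1), (powersetCard j (univ : Finset (Fin n × Bool))).card := card_biUnion_le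
    _ ≤ ∑ j ∈ range (k + 1), (2 * n) ^ j * 1 ^ (k - j) * k.choose j := by
        apply sum_le_sum
        intro j hj
        have h3 : Fintype.card (Fin n × Bool) = 2 * n := by
          rw [Fintype.card_prod, Fintype.card_fin, Fintype.card_bool, mul_comm]
        rw [card_powersetCard, card_univ, h3, one_pow, mul_one]
        have h1 : (2 * n).choose j ≤ (2 * n) ^ j := Nat.choose_le_pow _ _
        have h2 : 1 ≤ k.choose j := Nat.choose_pos (by have := mem_range.mp hj; omega)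
        calc (2 * n).choose j ≤ (2 * n) ^ j := h1
          _ = (2 * n) ^ j * 1 := (mul_one _).symm
          _ ≤ (2 * n) ^ j * k.choose j := Nat.mul_le_mul_left _ h2
    _ = (2 * n + 1) ^ k := (add_pow _ _ _).symm

lemma size_le {k μ : ℕ} (hk : 1 ≤ k) (hμ : 1 ≤ μ) :
    2 ^ (k * μ) + 2 ^ (k * μ) * (k * μ) * (2 * (k * μ) + 3) +
      2 ^ (k * μ) * (k * 2 ^ μ) * (μ + 1) ≤ 8 * k ^ 2 * μ * 2 ^ ((k + 1) * μ) := by
  have e : 2 ^ ((k + 1) * μ) = 2 ^ (k * μ) * 2 ^ μ := by rw [← pow_add]; congr 1; ring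
  rw [e]
  generalize 2 ^ (k * μ) = P
  have hQ : μ ≤ 2 ^ μ := (Nat.lt_two_pow_self).le
  generalize 2 ^ μ = Q at hQ ⊢
  have a1 : 1 ≤ k * μ := Nat.one_le_iff_ne_zero.mpr (by positivity)
  have a2 : 1 + (k * μ) * (2 * (k * μ) + 3) ≤ 6 * (k * μ) ^ 2 := by nlinarith
  have a3 : (k * μ) ^ 2 ≤ k ^ 2 * μ * Q := by
    calc (k * μ) ^ 2 = k ^ 2 * μ * μ := by ring
      _ ≤ k ^ 2 * μ * Q := Nat.mul_le_mul_left _ hQ
  have a4 : k * Q * (μ + 1) ≤ 2 * (k ^ 2 * μ * Q) := by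
    calc k * Q * (μ + 1) ≤ k * Q * (2 * μ) := Nat.mul_le_mul_left _ (by omega)
      _ = 2 * (1 * k * μ * Q) := by ring
      _ ≤ 2 * (k * k * μ * Q) := by gcongr
      _ = 2 * (k ^ 2 * μ * Q) := by ring
  calc P + P * (k * μ) * (2 * (k * μ) + 3) + P * (k * Q) * (μ + 1)
      = P * ((1 + (k * μ) * (2 * (k * μ) + 3)) + k * Q * (μ + 1)) := by ring
    _ ≤ P * (6 * (k ^ 2 * μ * Q) + 2 * (k ^ 2 * μ * Q)) := by
        apply Nat.mul_le_mul_left
        have := a2.trans (Nat.mul_le_mul_left 6 a3)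
        omega
    _ = 8 * k ^ 2 * μ * (P * Q) := by ring

lemma exists_mu {k n : ℕ} (hk : 1 ≤ k) (hn : 8 * k ^ 2 * 2 ^ (k + 1) ≤ n) :
    ∃ μ : ℕ, 1 ≤ μ ∧ 8 * k ^ 2 * μ * 2 ^ ((k + 1) * μ) ≤ n ∧
      n < 8 * k ^ 2 * (μ + 1) * 2 ^ ((k + 1) * (μ + 1)) := by
  classical
  let P : ℕ → Prop := fun μ => 8 * k ^ 2 * μ * 2 ^ ((k + 1) * μ) ≤ n
  have hP1 : P 1 := by
    show 8 * k ^ 2 * 1 * 2 ^ ((k + 1) * 1) ≤ n
    simpa using hn
  have hk2 : 1 ≤ k ^ 2 := Nat.one_le_pow _ _ hk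
  have hn1 : 1 ≤ n := by
    have : 1 ≤ 2 ^ (k + 1) := Nat.one_le_two_pow
    nlinarith
  set μ := Nat.findGreatest P n with hμ
  have h1 : 1 ≤ μ := Nat.le_findGreatest hn1 hP1
  have h2 : P μ := Nat.findGreatest_spec hn1 hP1
  have h3 : μ + 1 ≤ n := by
    have h4 : 8 * k ^ 2 * μ * 2 ^ ((k + 1) * μ) ≤ n := h2
    have h5 : 1 ≤ 2 ^ ((k + 1) * μ) := Nat.one_le_two_pow
    have h6 : 8 * 1 * μ * 1 ≤ 8 * k ^ 2 * μ * 2 ^ ((k + 1) * μ) := by gcongr
    omega
  refine ⟨μ, h1, h2, ?_⟩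
  by_contra hcon
  push Not at hcon
  have h7 : μ + 1 ≤ Nat.findGreatest P n := Nat.le_findGreatest h3 hcon
  omega

lemma ev_log (k : ℕ) (hk : 1 ≤ k) (B : ℝ) : ∀ᶠ n : ℕ in atTop,
    B * Real.log n ^ 4 ≤ (n : ℝ) ^ ((k : ℝ) / (k + 1)) := by
  have hr : 0 < (k : ℝ) / (k + 1) := by
    have : (0 : ℝ) < k := by exact_mod_cast hk
    positivity
  have h := isLittleO_log_rpow_rpow_atTop (s := (k : ℝ) / (k + 1)) 4 hr
  have h1 : ∀ᶠ x : ℝ in atTop, |B| * Real.log x ^ 4 ≤ x ^ ((k : ℝ) / (k + 1)) := by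
    have hB : 0 < 1 / (|B| + 1) := by positivity
    filter_upwards [h.bound hB, eventually_ge_atTop (1 : ℝ)] with x hx hx1
    have hl : 0 ≤ Real.log x := Real.log_nonneg hx1
    have e4 : Real.log x ^ (4 : ℝ) = Real.log x ^ 4 := by
      rw [show (4 : ℝ) = ((4 : ℕ) : ℝ) by norm_num, Real.rpow_natCast]
    rw [e4, Real.norm_of_nonneg (by positivity), Real.norm_of_nonneg (by positivity)] at hx
    rw [one_div, inv_mul_eq_div, le_div_iff₀ (by positivity)] at hx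
    nlinarith [pow_nonneg hl 4]
  have h2 := tendsto_natCast_atTop_atTop.eventually h1
  filter_upwards [h2] with n hn
  refine le_trans ?_ hn
  have : (0 : ℝ) ≤ Real.log n ^ 4 := by positivity
  gcongr
  exact le_abs_self B

theorem t_PFIN : S_PFIN := by
  intro hPAR k hk
  have hk0 : (0 : ℝ) < k := by exact_mod_cast (by omega : 0 < k)
  have hk1 : (3 : ℝ) ≤ k := by exact_mod_cast hk
  set r : ℝ := (k : ℝ) / (k + 1) with hr
  have hr0 : 0 < r := by rw [hr]; positivity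
  have hr1 : r ≤ 1 := by rw [hr, div_le_one (by positivity)]; linarith
  set A : ℝ := 16 * (k : ℝ) ^ 2 * 2 ^ (k + 1) with hA
  have hA0 : 1 ≤ A := by
    have : (1 : ℝ) ≤ 2 ^ (k + 1) := one_le_pow₀ (by norm_num)
    rw [hA]
    nlinarith
  set c' : ℝ := 1 / (A * (16384 * (k : ℝ) ^ 2)) with hc'
  have hc'0 : 0 < c' := by rw [hc']; positivity
  set B : ℝ := A * (16384 * (k : ℝ) ^ 2 + 2) + 2 * (4 * k + 2) / c' with hB
  have hB1 : A * (16384 * (k : ℝ) ^ 2 + 2) ≤ B := by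
    rw [hB]
    have : 0 ≤ 2 * (4 * (k : ℝ) + 2) / c' := by positivity
    linarith
  have hB2 : 4 * (k : ℝ) + 2 ≤ c' / 2 * B := by
    have e1 : c' / 2 * (2 * (4 * (k : ℝ) + 2) / c') = 4 * k + 2 := by field_simp
    have e2 : 0 ≤ c' / 2 * (A * (16384 * (k : ℝ) ^ 2 + 2)) := by positivity
    rw [hB, mul_add, e1]
    linarith
  refine ⟨c' / 2, by positivity, ?_⟩
  filter_upwards [ev_log k (by omega) B, eventually_ge_atTop (8 * k ^ 2 * 2 ^ (k + 1)),
    eventually_ge_atTop 4] with n hnB hn8 hn4 C hC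
  have hnR : (4 : ℝ) ≤ n := by exact_mod_cast hn4
  set L : ℝ := Real.log n with hL
  have hL1 : 1 ≤ L := by
    rw [hL, Real.le_log_iff_exp_le (by linarith)]
    have := Real.exp_one_lt_d9
    linarith
  obtain ⟨μ, hμ1, hμ2, hμ3⟩ := exists_mu (by omega : 1 ≤ k) hn8
  have hμR : (1 : ℝ) ≤ μ := by exact_mod_cast hμ1
  -- `μ ≤ L`
  have hμL : (μ : ℝ) ≤ L := by
    have h1 : 2 ^ ((k + 1) * μ) ≤ n := by
      have h2 : 1 ≤ 8 * k ^ 2 * μ := by
        have : 1 ≤ k ^ 2 * μ := Nat.one_le_iff_ne_zero.mpr (by positivity)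
        nlinarith
      calc 2 ^ ((k + 1) * μ) = 1 * 2 ^ ((k + 1) * μ) := (one_mul _).symm
        _ ≤ 8 * k ^ 2 * μ * 2 ^ ((k + 1) * μ) := Nat.mul_le_mul_right _ h2
        _ ≤ n := hμ2
    have h2 : ((2 : ℝ) ^ ((k + 1) * μ)) ≤ n := by exact_mod_cast h1
    have h3 := Real.log_le_log (by positivity) h2
    rw [Real.log_pow] at h3
    push_cast at h3
    have h4 : (0.5 : ℝ) ≤ Real.log 2 := by linarith [Real.log_two_gt_d9]
    have h5 : (μ : ℝ) ≤ (k + 1) * μ * Real.log 2 := by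
      calc (μ : ℝ) = (4 * μ * 0.25 : ℝ) := by ring
        _ ≤ (k + 1) * μ * Real.log 2 := by
          have : (4 : ℝ) * μ ≤ (k + 1) * μ := by nlinarith
          have h6 : (0 : ℝ) ≤ (k + 1) * μ := by positivity
          nlinarith
    linarith
  -- the size of `2 ^ (k μ)`
  have hM : (n : ℝ) ^ r ≤ A * L * 2 ^ (k * μ) := by
    have h1 : (n : ℝ) ≤ A * L * 2 ^ ((k + 1) * μ) := by
      have h2 : (n : ℝ) < 8 * (k : ℝ) ^ 2 * (μ + 1) * 2 ^ ((k + 1) * (μ + 1)) := by exact_mod_cast hμ3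
      have e : (2 : ℝ) ^ ((k + 1) * (μ + 1)) = 2 ^ (k + 1) * 2 ^ ((k + 1) * μ) := by
        rw [← pow_add]; congr 1; ring
      rw [e] at h2
      refine h2.le.trans ?_
      have h3 : (μ : ℝ) + 1 ≤ 2 * L := by linarith
      calc 8 * (k : ℝ) ^ 2 * (μ + 1) * (2 ^ (k + 1) * 2 ^ ((k + 1) * μ))
          ≤ 8 * (k : ℝ) ^ 2 * (2 * L) * (2 ^ (k + 1) * 2 ^ ((k + 1) * μ)) := by gcongr
        _ = A * L * 2 ^ ((k + 1) * μ) := by rw [hA]; ring
    have h4 : (n : ℝ) ^ r ≤ (A * L * 2 ^ ((k + 1) * μ)) ^ r := Real.rpow_le_rpow (by positivity) h1 hr0.le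
    refine h4.trans ?_
    rw [Real.mul_rpow (by positivity) (by positivity)]
    have h5 : ((2 : ℝ) ^ ((k + 1) * μ)) ^ r = 2 ^ (k * μ) := by
      rw [← Real.rpow_natCast, ← Real.rpow_natCast, ← Real.rpow_mul (by norm_num)]
      congr 1
      rw [hr]
      push_cast
      field_simp
    have h6 : (A * L) ^ r ≤ A * L := by
      have : 1 ≤ A * L := by nlinarith
      calc (A * L) ^ r ≤ (A * L) ^ (1 : ℝ) := Real.rpow_le_rpow_of_exponent_le this hr1
        _ = A * L := Real.rpow_one _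
    rw [h5]
    gcongr
  set M : ℕ := 2 ^ (k * μ) with hMdef
  have hMR : (M : ℝ) = 2 ^ (k * μ) := by rw [hMdef]; push_cast; rfl
  rw [← hMR] at hM
  set D : ℕ := 8192 * (k * μ) ^ 2 with hD
  have hDR : (D : ℝ) = 8192 * ((k : ℝ) * μ) ^ 2 := by rw [hD]; push_cast; rfl
  have hDL : (D : ℝ) ≤ 8192 * (k : ℝ) ^ 2 * L ^ 2 := by
    rw [hDR, mul_pow, ← mul_assoc]
    gcongr
  have hAL : 0 < A * L := by positivity
  -- `M ≥ 2 D + 2`
  have hMD : 2 * D + 2 ≤ M := by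
    have h1 : A * L * (2 * (D : ℝ) + 2) ≤ A * L * M := by
      refine le_trans ?_ (hnB.trans hM)
      have h2 : A * L * (2 * (D : ℝ) + 2) ≤ A * L * ((16384 * (k : ℝ) ^ 2 + 2) * L ^ 3) := by
        have h3 : 2 * (D : ℝ) + 2 ≤ (16384 * (k : ℝ) ^ 2 + 2) * L ^ 2 := by nlinarith
        have h4 : L ^ 2 ≤ L ^ 3 := pow_le_pow_right₀ hL1 (by norm_num)
        have h5 : (16384 * (k : ℝ) ^ 2 + 2) * L ^ 2 ≤ (16384 * (k : ℝ) ^ 2 + 2) * L ^ 3 := by gcongr
        gcongr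
        linarith
      refine h2.trans ?_
      calc A * L * ((16384 * (k : ℝ) ^ 2 + 2) * L ^ 3) = A * (16384 * (k : ℝ) ^ 2 + 2) * L ^ 4 := by ring
        _ ≤ B * L ^ 4 := by gcongr
    have h6 := le_of_mul_le_mul_left h1 hAL
    exact_mod_cast h6
  have hD0 : 0 < D := by rw [hD]; positivity
  -- the parameter `e`
  set e : ℕ := (M - 1) / D with he
  have he1 : 1 ≤ e := by
    rw [he, Nat.one_le_div_iff hD0]
    omega
  have he2 : D * e + 1 ≤ M := by
    have := Nat.mul_div_le (M - 1) D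
    rw [← he] at this
    omega
  have he3 : M ≤ D * e + D := by
    have := Nat.lt_mul_div_succ (M - 1) hD0
    rw [← he, mul_add, mul_one] at this
    omega
  have heR : (M : ℝ) ≤ 2 * D * e := by
    have h1 : (M : ℝ) ≤ D * e + D := by exact_mod_cast he3
    have h2 : 2 * (D : ℝ) + 2 ≤ M := by exact_mod_cast hMD
    linarith
  set X : ℝ := c' / 2 * (n : ℝ) ^ r / L ^ 3 with hX
  have hXe : 2 * X ≤ e := by
    have h1 : (n : ℝ) ^ r ≤ A * L * (2 * (8192 * (k : ℝ) ^ 2 * L ^ 2) * e) := by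
      refine hM.trans ?_
      gcongr
      refine heR.trans ?_
      gcongr
    have h2 : 2 * X = (n : ℝ) ^ r / (A * (16384 * (k : ℝ) ^ 2) * L ^ 3) := by
      rw [hX, hc']
      field_simp
    rw [h2, div_le_iff₀ (by positivity)]
    refine h1.trans (le_of_eq ?_)
    ring
  have hXL : (4 * (k : ℝ) + 2) * L ≤ X := by
    rw [hX, le_div_iff₀ (by positivity)]
    calc (4 * (k : ℝ) + 2) * L * L ^ 3 = (4 * (k : ℝ) + 2) * L ^ 4 := by ring
      _ ≤ c' / 2 * B * L ^ 4 := by gcongr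
      _ = c' / 2 * (B * L ^ 4) := by ring
      _ ≤ c' / 2 * (n : ℝ) ^ r := by gcongr
  have hX1 : 1 < X := by nlinarith
  -- the number of clauses
  have hQ : (Fintype.card (Clause n k) : ℝ) + 1 ≤ 2 ^ X := by
    have h1 : (Fintype.card (Clause n k) : ℝ) ≤ (2 * n + 1) ^ k := by exact_mod_cast card_clause n k
    have h2 : ((2 : ℝ) * n + 1) ^ k + 1 ≤ (n ^ 2 : ℝ) ^ k := by
      have h3 : (1 : ℝ) ≤ 2 * n + 1 := by linarith
      have h4 : ((2 : ℝ) * n + 1) ^ k + 1 ≤ (2 * n + 2) ^ k := by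
        obtain ⟨j, rfl⟩ : ∃ j, k = j + 1 := ⟨k - 1, by omega⟩
        have h5 : (1 : ℝ) ≤ (2 * n + 1) ^ j := one_le_pow₀ h3
        calc ((2 : ℝ) * n + 1) ^ (j + 1) + 1 ≤ (2 * n + 1) ^ (j + 1) + (2 * n + 1) ^ j := by linarith
          _ = (2 * n + 1) ^ j * (2 * n + 2) := by ring
          _ ≤ (2 * n + 2) ^ j * (2 * n + 2) := by
            gcongr
            linarith
          _ = (2 * n + 2) ^ (j + 1) := by ring
      refine h4.trans ?_
      apply pow_le_pow_left₀ (by positivity)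
      nlinarith
    have h6 : ((n : ℝ) ^ 2) ^ k = Real.exp (2 * k * L) := by
      rw [← pow_mul, hL, mul_comm (2 * (k : ℝ)), Real.exp_mul, Real.exp_log (by linarith)]
      rw [show (2 * (k : ℝ)) = ((2 * k : ℕ) : ℝ) by push_cast; ring, Real.rpow_natCast]
    have h7 : (2 : ℝ) ^ X = Real.exp (Real.log 2 * X) := by
      rw [Real.rpow_def_of_pos (by norm_num)]
    rw [h7]
    rw [h6] at h2
    refine (by linarith : (Fintype.card (Clause n k) : ℝ) + 1 ≤ Real.exp (2 * k * L)).trans ?_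
    apply Real.exp_le_exp.mpr
    have h8 : (0.5 : ℝ) ≤ Real.log 2 := by linarith [Real.log_two_gt_d9]
    nlinarith
  -- the end
  have hfin := hPAR k μ n e hk hμ1 he1 (by rw [← hD]; exact he2)
    ((size_le (by omega) hμ1).trans hμ2) C hC
  by_contra hcon
  push Not at hcon
  have hm : (C.m : ℝ) < 2 ^ X := by
    rw [hX]
    exact hcon
  have hfR : (4 : ℝ) ^ e ≤ 2 * (C.m * (C.m + Fintype.card (Clause n k) + 1)) := by exact_mod_cast hfin
  have h2X : (0 : ℝ) < 2 ^ X := by positivity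
  have h9 : (4 : ℝ) ^ e ≤ 4 ^ (X + 1) := by
    refine hfR.trans ?_
    have e1 : (4 : ℝ) ^ (X + 1) = 4 * (2 ^ X * 2 ^ X) := by
      rw [Real.rpow_add (by norm_num), Real.rpow_one, show (4 : ℝ) = 2 * 2 by norm_num,
        Real.mul_rpow (by norm_num) (by norm_num)]
      ring
    rw [e1]
    have h10 : (C.m : ℝ) * (C.m + Fintype.card (Clause n k) + 1) ≤ 2 ^ X * (2 * 2 ^ X) := by
      have h11 : (C.m : ℝ) + Fintype.card (Clause n k) + 1 ≤ 2 * 2 ^ X := by linarith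
      gcongr
    linarith
  rw [← Real.rpow_natCast] at h9
  have h12 := (Real.rpow_le_rpow_left_iff (by norm_num : (1 : ℝ) < 4)).mp h9
  linarith

end Pool.Agent.J4H46.MC
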